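import Pool.Agent.H34Det.Core
import Pool.Agent.H69Fu.All

/-!
# Characteristic polynomials and determinants in the full regime: all moduli

*Proof.* As in `Pool.Agent.LinU.R11`: a number `< m` is determined by its residues modulo the prime
powers `p` which divide `m`; the residue of the coefficient of the characteristic polynomial is the
coefficient of the characteristic polynomial of the reduced matrix, `coeff_pp`. ∎
-/

set_option autoImplicit false

namespace Pool.Agent.H34Det

open Finset Polynomial Pool.Agent.Grz Pool.Agent.GAvg Pool.Agent.PTr Pool.Agent.MTr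
open Pool.Agent.LPC Pool.Agent.ECD Pool.Agent.LinU Pool.Agent.LinU.R11 Pool.Agent.H63WB

/-- the reduced map -/
theorem lin_red {m N p : ℕ} {T : ℕ → ℕ} (hp0 : 0 < p) (hm : 0 < m) (hp : p ∣ m)
    {A : Matrix (Fin N) (Fin N) (ZMod m)}
    (h : ∀ z, z < m ^ N → vecOf m N (T z) = A.mulVec (vecOf m N z)) (z : ℕ) :
    vecOf p N (dn p m N (T (up p m N z))) =
      (A.map (ZMod.castHom hp (ZMod p))).mulVec (vecOf p N z) := by
  have hpm := Nat.le_of_dvd hm hp
  funext i
  have h1 := cast_T (b := 0) hp (fun z hz => by rw [add_zero]; exact h z hz)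
    (up_lt hp0 hpm z) i
  have h2 : (fun j : Fin N => ((dg m (up p m N z) j : ℕ) : ZMod p)) = vecOf p N z := by
    funext j
    rw [dg_up hp0 hpm z j.isLt]
    rfl
  rw [h2] at h1
  have h3 : (fun j : Fin N => ZMod.castHom hp (ZMod p) ((0 : Fin N → ZMod m) j)) = 0 := by
    funext j
    rw [Pi.zero_apply, map_zero]
    rfl
  rw [h3, add_zero] at h1
  rw [← h1]
  unfold vecOf
  rw [dg_dn hp0 _ i.isLt, ZMod.natCast_mod]

theorem val_cast {m p : ℕ} (hm : 0 < m) (hp : p ∣ m) (x : ZMod m) :
    (ZMod.castHom hp (ZMod p) x).val = x.val % p := by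
  have : NeZero m := ⟨hm.ne'⟩
  conv_lhs => rw [← ZMod.natCast_zmod_val x]
  rw [map_natCast, ZMod.val_natCast]

/-- **Characteristic polynomials, full regime, all moduli.** -/
theorem coeff_pos {n : ℕ} {m N B i f : (Fin n → ℕ) → ℕ} {T : ℕ → (Fin n → ℕ) → ℕ}
    (hm : DFun n m) (hN : DFun n N) (hB : DFun n B) (hi : DFun n i)
    (hT : DFun (n + 1) (fun w => T (w 0) (fun i => w i.succ))) (hm0 : ∀ v, 0 < m v)
    (hmN : ∀ v, m v ^ N v ≤ B v)
    (hlin : ∀ v, ∃ A : Matrix (Fin (N v)) (Fin (N v)) (ZMod (m v)),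
      (∀ z, z < m v ^ N v → vecOf (m v) (N v) (T z v) = A.mulVec (vecOf (m v) (N v) z)) ∧
      f v = (A.charpoly.coeff (i v)).val) : DFun n f := by
  classical
  let F : ℕ → (Fin n → ℕ) → ℕ := fun p v =>
    if LinU.R11.Valid m p v then f v % p else if i v = 0 then 1 else 0
  have hF : DFun (n + 1) (fun w => F (w 0) (fun i => w i.succ)) := by
    refine coeff_pp (q := fun w => pp m (w 0) (fun i => w i.succ))
      (N := fun w => nn m N (w 0) (fun i => w i.succ)) (B := fun w => B (fun i => w i.succ) + 1)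
      (i := fun w => i (fun i => w i.succ))
      (T := fun z w => TT m N T (w 0) z (fun i => w i.succ))
      (dfun_pp hm.weak (DFun.proj 0)) (dfun_nn hm.weak hN.weak (DFun.proj 0))
      (hB.weak.add (DFun.const 1)) hi.weak ?_
      (fun w => pp_prime m _ _) (fun w => (wide_bd hm0 hmN _ _).2) (fun w z _ => ?_)
      (fun w => ?_)
    · have h1 := wide_up (k := n + 1 + 1) (a := fun u => u 1) (z := fun u => u 0)
        (s := fun u i => u i.succ.succ) hm0 hmN hm.weak.weak hN.weak.weak hB.weak.weak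
        (DFun.proj 1) (DFun.proj 0)
      have h2 := comp' hT (k := n + 1 + 1) (s := fun i u => u i.succ.succ) h1
        (fun i => DFun.proj i.succ.succ)
      exact wide_dn (k := n + 1 + 1) (a := fun u => u 1) (s := fun u i => u i.succ.succ)
        hm0 hmN hm.weak.weak hN.weak.weak hB.weak.weak (DFun.proj 1) h2
    · exact dn_lt (by have := pp_two m (w 0) (fun i => w i.succ); omega) _
    · set v : Fin n → ℕ := fun i => w i.succ
      by_cases hv : LinU.R11.Valid m (w 0) v
      · have e1 : nn m N (w 0) v = N v := by unfold nn; rw [if_pos hv]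
        have e2 : pp m (w 0) v = w 0 := by unfold pp; rw [if_pos hv]
        have e3 := m1_eq hv (hm0 v)
        obtain ⟨A, hA, hf⟩ := hlin v
        have e4 : F (w 0) v = f v % w 0 := if_pos hv
        rw [e4]
        unfold TT
        rw [e1, e2, e3]
        refine ⟨A.map (ZMod.castHom hv.2 (ZMod (w 0))), fun z _ =>
          lin_red (T := fun z => T z v) hv.1.pos (hm0 v) hv.2 hA z, ?_⟩
        rw [hf, Matrix.charpoly_map, coeff_map, val_cast (hm0 v)]
      · have e1 : nn m N (w 0) v = 0 := by unfold nn; rw [if_neg hv]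
        have e2 : pp m (w 0) v = 2 := by unfold pp; rw [if_neg hv]
        have e4 : F (w 0) v = if i v = 0 then 1 else 0 := if_neg hv
        rw [e4, e1, e2]
        refine ⟨0, fun z _ => funext fun i => i.elim0, ?_⟩
        rw [Matrix.charpoly, Matrix.det_isEmpty, coeff_one]
        by_cases h1 : i v = 0
        · rw [if_pos h1, if_pos h1]
          rfl
        · rw [if_neg h1, if_neg h1]
          rfl
  have hfb : ∀ v, f v < m v := by
    intro v
    obtain ⟨A, _, hf⟩ := hlin v
    have : NeZero (m v) := ⟨(hm0 v).ne'⟩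
    rw [hf]
    exact ZMod.val_lt _
  refine DFun.ofGraph hm (fun v => (hfb v).le) ?_
  have h1 : Delta0 (n + 1 + 1) (fun u =>
      LinU.R11.Valid m (u 0) (fun i => u i.succ.succ) →
      u 1 % u 0 = F (u 0) (fun i => u i.succ.succ)) := by
    refine (delta_valid (k := n + 1 + 1) (s := fun w i => w i.succ.succ)
      hm.weak.weak (DFun.proj 0)).imp (Delta0.eqFun (DFun.modAny (DFun.proj 1)
      (DFun.proj 0)) (comp' hF (k := n + 1 + 1) (s := fun i w => w i.succ.succ) (DFun.proj 0)
        (fun i => DFun.proj i.succ.succ)))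
  have h2 := Delta0.ballFun (n := n + 1) (b := fun u => m (fun i => u i.succ))
    (P := fun p u => LinU.R11.Valid m p (fun i => u i.succ) →
      u 0 % p = F p (fun i => u i.succ)) hm.weak h1
  refine ((Delta0.ltFun (DFun.proj (n := n + 1) 0) hm.weak).and h2).of_iff fun w => ?_
  set v : Fin n → ℕ := fun i => w i.succ
  change w 0 = f v ↔ w 0 < m v ∧ ∀ p, p ≤ m v → LinU.R11.Valid m p v → w 0 % p = F p v
  constructor
  · intro h
    refine ⟨by rw [h]; exact hfb v, fun p _ hp => ?_⟩
    have e4 : F p v = f v % p := if_pos hp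
    rw [e4, h]
  · rintro ⟨h3, h4⟩
    refine eq_of_mod h3 (hfb v) fun p hp hpm => ?_
    have e4 : F p v = f v % p := if_pos ⟨hp, hpm⟩
    rw [h4 p (Nat.le_of_dvd (hm0 v) hpm) ⟨hp, hpm⟩, e4]

/-- **Characteristic polynomials and determinants of the linear parts of affine maps.** -/
theorem charpoly_def {n : ℕ} {m N B i : (Fin n → ℕ) → ℕ} {T : ℕ → (Fin n → ℕ) → ℕ}
    (A : ∀ v, Matrix (Fin (N v)) (Fin (N v)) (ZMod (m v))) (c : ∀ v, Fin (N v) → ZMod (m v))
    (hm : DFun n m) (hN : DFun n N) (hB : DFun n B) (hi : DFun n i)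
    (hT : DFun (n + 1) (fun w => T (w 0) (fun i => w i.succ))) (hm0 : ∀ v, 0 < m v)
    (hmN : ∀ v, m v ^ N v ≤ B v) (hTb : ∀ v z, z < m v ^ N v → T z v < m v ^ N v)
    (haff : ∀ v z, z < m v ^ N v →
      vecOf (m v) (N v) (T z v) = (A v).mulVec (vecOf (m v) (N v) z) + c v) :
    DFun n (fun v => ((A v).charpoly.coeff (i v)).val) := by
  classical
  let N1 : (Fin n → ℕ) → ℕ := fun v => if m v ≤ 1 then 0 else N v
  have hN1 : DFun n N1 := DFun.ite (Delta0.leFun hm (DFun.const 1)) (DFun.const 0) hN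
  have hm1 : DFun n (m1 m) := dfun_m1 (k := n) (s := fun v => v) hm
  let L : ℕ → (Fin n → ℕ) → ℕ := fun z v => ∑ l ∈ range (N1 v),
    ((dg (m1 m v) (T z v) l + (m1 m v - dg (m1 m v) (T 0 v) l)) % m1 m v) * m1 m v ^ l
  have hb1 : ∀ v, m1 m v ^ N1 v ≤ B v + 1 := by
    intro v
    simp only [N1, m1]
    split_ifs with h
    · simp
    · exact (hmN v).trans (Nat.le_succ _)
  have hL : DFun (n + 1) (fun w => L (w 0) (fun i => w i.succ)) := by
    refine dfun_code (n := n + 1) (m := fun w => m1 m (fun i => w i.succ))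
      (d := fun w => N1 (fun i => w i.succ)) (B := fun w => B (fun i => w i.succ) + 1)
      (g := fun l w => (dg (m1 m (fun i => w i.succ)) (T (w 0) (fun i => w i.succ)) l +
        (m1 m (fun i => w i.succ) - dg (m1 m (fun i => w i.succ)) (T 0 (fun i => w i.succ)) l)) %
          m1 m (fun i => w i.succ))
      hm1.weak hN1.weak (hB.weak.add (DFun.const 1)) ?_ (fun w => m1_two m _) (fun w => hb1 _)
    have h1 : DFun (n + 1 + 1) (fun u => T (u 1) (fun i => u i.succ.succ)) :=
      comp' hT (k := n + 1 + 1) (s := fun i u => u i.succ.succ) (DFun.proj 1)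
        (fun i => DFun.proj i.succ.succ)
    have h0 : DFun (n + 1 + 1) (fun u => T 0 (fun i => u i.succ.succ)) :=
      comp' hT (k := n + 1 + 1) (s := fun i u => u i.succ.succ) (DFun.const 0)
        (fun i => DFun.proj i.succ.succ)
    exact DFun.modAny ((dfun_dg hm1.weak.weak h1 (DFun.proj 0) fun _ => m1_two m _).add
      (hm1.weak.weak.sub (dfun_dg hm1.weak.weak h0 (DFun.proj 0) fun _ => m1_two m _)))
      hm1.weak.weak
  refine coeff_pos hm hN hB hi hL hm0 hmN fun v => ⟨A v, fun z hz => ?_, rfl⟩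
  by_cases h : m v ≤ 1
  · have h1 : m v = 1 := le_antisymm h (hm0 v)
    funext l
    have : Subsingleton (ZMod (m v)) := by rw [h1]; infer_instance
    exact Subsingleton.elim _ _
  · have e1 : m1 m v = m v := by unfold m1; rw [if_neg h]
    have e2 : N1 v = N v := if_neg h
    have hz0 := haff v 0 (pow_pos (hm0 v) _)
    have hz1 := haff v z hz
    have h00 : vecOf (m v) (N v) 0 = 0 := by
      funext l
      unfold vecOf
      rw [A7.dg_zero, Nat.cast_zero]
      rfl
    rw [h00, Matrix.mulVec_zero, zero_add] at hz0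
    funext l
    have h3 := congrFun hz0 l
    have h4 := congrFun hz1 l
    rw [Pi.add_apply] at h4
    have h5 : dg (m v) (L z v) l =
        (dg (m v) (T z v) l + (m v - dg (m v) (T 0 v) l)) % m v := by
      simp only [L]
      rw [e1, e2]
      exact dg_code (by omega) (fun l => (dg (m v) (T z v) l + (m v - dg (m v) (T 0 v) l)) % m v)
        (fun _ _ => Nat.mod_lt _ (by omega)) l.isLt
    have h6 : vecOf (m v) (N v) (L z v) l = ((dg (m v) (L z v) l : ℕ) : ZMod (m v)) := rfl
    have h7 : vecOf (m v) (N v) (T z v) l = ((dg (m v) (T z v) l : ℕ) : ZMod (m v)) := rfl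
    have h8 : vecOf (m v) (N v) (T 0 v) l = ((dg (m v) (T 0 v) l : ℕ) : ZMod (m v)) := rfl
    have h9 : dg (m v) (T 0 v) l ≤ m v := (dg_lt (hm0 v) _ _).le
    rw [h6, h5, ZMod.natCast_mod, Nat.cast_add, Nat.cast_sub h9, ZMod.natCast_self, zero_sub,
      ← h7, ← h8, h4, h3]
    ring

/-- **Determinants, full regime, all moduli.** -/
theorem det_def {n : ℕ} {m N B : (Fin n → ℕ) → ℕ} {T : ℕ → (Fin n → ℕ) → ℕ}
    (A : ∀ v, Matrix (Fin (N v)) (Fin (N v)) (ZMod (m v))) (c : ∀ v, Fin (N v) → ZMod (m v))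
    (hm : DFun n m) (hN : DFun n N) (hB : DFun n B)
    (hT : DFun (n + 1) (fun w => T (w 0) (fun i => w i.succ))) (hm0 : ∀ v, 0 < m v)
    (hmN : ∀ v, m v ^ N v ≤ B v) (hTb : ∀ v z, z < m v ^ N v → T z v < m v ^ N v)
    (haff : ∀ v z, z < m v ^ N v →
      vecOf (m v) (N v) (T z v) = (A v).mulVec (vecOf (m v) (N v) z) + c v) :
    DFun n (fun v => (A v).det.val) := by
  have h1 := charpoly_def A c hm hN hB (DFun.const 0) hT hm0 hmN hTb haff
  have h2 := DFun.ite (Delta0.eqFun (DFun.modPos hN (DFun.const 2) fun _ => by norm_num)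
    (DFun.const 0)) h1 (DFun.modPos (hm.sub h1) hm hm0)
  refine (congrArg (DFun n) (funext fun v => ?_)).mp h2
  have : NeZero (m v) := ⟨(hm0 v).ne'⟩
  have h3 := Matrix.det_eq_sign_charpoly_coeff (A v)
  rw [Fintype.card_fin] at h3
  rw [h3]
  rcases Nat.even_or_odd (N v) with h | h
  · rw [if_pos (Nat.even_iff.1 h), h.neg_one_pow, one_mul]
  · rw [if_neg (by rw [Nat.odd_iff.1 h]; norm_num), h.neg_one_pow, neg_one_mul, ZMod.neg_val]
    split_ifs with h4
    · rw [h4, ZMod.val_zero, Nat.sub_zero, Nat.mod_self]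
    · refine Nat.mod_eq_of_lt (Nat.sub_lt (hm0 v) (Nat.pos_of_ne_zero fun h5 => h4 ?_))
      exact (ZMod.val_eq_zero _).1 h5

end Pool.Agent.H34Det
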