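import Pool.Agent.H63LB.Core

/-!
# Package Bn: the bound for the number of bits (pure)

`p ^ (e - 1) < 3 N (N + 1) / 2 ≤ 2 ^ (4 N)` or `e = 1`, for `e = ee p (N (N + 1) / 2)`.
-/

set_option autoImplicit false

namespace Pool.Agent.H34Det

open Pool.Agent.LinU

theorem ee_spec {p M : ℕ} (hp : 2 ≤ p) : 1 ≤ H63LB.Cor.ee p M ∧ 3 * M ≤ p ^ H63LB.Cor.ee p M := by
  refine ⟨le_max_left _ _, ?_⟩
  rw [← Nat.clog_le_iff_le_pow (by omega)]
  exact le_max_right _ _

theorem ee_bound {p k q N B : ℕ} (hp : p.Prime) (hk : 0 < k) (hqp : q = p ^ k) (hN : 1 ≤ N)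
    (hB : q ^ N ≤ B) : q ^ H63LB.Cor.ee p (N * (N + 1) / 2) ≤ B ^ 5 := by
  have hp2 := hp.two_le
  have hq1 : 1 ≤ q := by rw [hqp]; exact Nat.one_le_pow _ _ hp.pos
  have hqB : q ≤ B := (Nat.le_self_pow (by omega) q).trans hB
  have hB1 : 1 ≤ B := hq1.trans hqB
  set M := N * (N + 1) / 2 with hM
  set e := H63LB.Cor.ee p M with he
  have h1 : e = 1 ∨ p ^ (e - 1) < 3 * M := by
    by_cases h : e = 1
    · exact Or.inl h
    · refine Or.inr ?_
      rw [← not_le, ← Nat.clog_le_iff_le_pow (by omega)]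
      rw [he] at h ⊢
      simp only [H63LB.Cor.ee] at h ⊢
      omega
  rcases h1 with h1 | h1
  · rw [h1, pow_one]
    exact hqB.trans (Nat.le_self_pow (by norm_num) B)
  · have he1 : 1 ≤ e := (ee_spec hp2).1
    have h2 : 3 * M ≤ 2 ^ (4 * N) := by
      have h3 : ∀ N : ℕ, 1 ≤ N → 3 * (N * (N + 1)) ≤ 2 * 16 ^ N := by
        intro N hN
        induction N, hN using Nat.le_induction with
        | base => norm_num
        | succ n hn ih =>
          rw [pow_succ]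
          nlinarith
      have h4 := h3 N hN
      have h5 : 2 * M ≤ N * (N + 1) := by rw [hM]; omega
      rw [pow_mul]
      norm_num
      omega
    have h3 : (p ^ (e - 1)) ^ k ≤ B ^ 4 := by
      calc (p ^ (e - 1)) ^ k ≤ (2 ^ (4 * N)) ^ k := Nat.pow_le_pow_left (h1.le.trans h2) k
        _ ≤ (p ^ (4 * N)) ^ k := Nat.pow_le_pow_left (Nat.pow_le_pow_left hp2 _) k
        _ = (q ^ N) ^ 4 := by rw [hqp, ← pow_mul, ← pow_mul, ← pow_mul]; congr 1; ring
        _ ≤ B ^ 4 := Nat.pow_le_pow_left hB 4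
    have h4 : q ^ e = (p ^ (e - 1)) ^ k * q := by
      obtain ⟨e', he'⟩ : ∃ e', e = e' + 1 := ⟨e - 1, by omega⟩
      rw [he', Nat.add_sub_cancel, hqp, ← pow_mul, ← pow_mul, ← pow_add]
      congr 1
      ring
    rw [h4]
    calc (p ^ (e - 1)) ^ k * q ≤ B ^ 4 * B := Nat.mul_le_mul h3 hqB
      _ = B ^ 5 := by ring

end Pool.Agent.H34Det
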