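import Pool.Agent.H34Det.Dl

/-!
# Package Dm: the product of the `U_j` and the good codes are definable

`ud` by `DFun.ofGraph` (bound `B + 1`), `wd` by `rprod_def` (`N ≤ lg B`) and `rde_def`, with
`j := min (w 0) (N - 1)` in place of the variable `j`; then `divU_delta`.
-/

set_option autoImplicit false

namespace Pool.Agent.H34Det

open Finset Polynomial Pool.Agent.Grz Pool.Agent.GAvg Pool.Agent.PTr Pool.Agent.MTr
open Pool.Agent.LPC Pool.Agent.ECD Pool.Agent.LinU Pool.Agent.H39H

variable {n m : ℕ} {T : ℕ → (Fin n → ℕ) → ℕ}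

private theorem Dm_ball {b : (Fin m → ℕ) → ℕ} (hb : DFun m b) {P : ℕ → (Fin m → ℕ) → Prop}
    (hP : Delta0 (m + 1) (fun w => P (w 0) (fun i => w i.succ))) :
    Delta0 m (fun v => ∀ x, x < b v → P x v) := by
  have h := Delta0.ballFun hb (P := fun x v => x < b v → P x v)
    ((Delta0.ltFun (DFun.proj 0) hb.weak).imp hP)
  refine h.of_iff fun v => ?_
  exact ⟨fun h x _ hx => h x hx, fun h x hx => h x hx.le hx⟩

private theorem Dm_bex {b : (Fin m → ℕ) → ℕ} (hb : DFun m b) {P : ℕ → (Fin m → ℕ) → Prop}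
    (hP : Delta0 (m + 1) (fun w => P (w 0) (fun i => w i.succ))) :
    Delta0 m (fun v => ∃ x, x < b v ∧ P x v) := by
  have h := Delta0.bexFun hb (P := fun x v => x < b v ∧ P x v)
    ((Delta0.ltFun (DFun.proj 0) hb.weak).and hP)
  refine h.of_iff fun v => ?_
  exact ⟨fun ⟨x, hx, h⟩ => ⟨x, hx.le, hx, h⟩, fun ⟨x, _, hx, h⟩ => ⟨x, hx, h⟩⟩

theorem ud_def (hT : DFun (n + 1) (fun w => T (w 0) (fun i => w i.succ)))
    {τ : Fin n → (Fin m → ℕ) → ℕ} (hτ : ∀ i, DFun m (τ i))
    {q N e j g B : (Fin m → ℕ) → ℕ} (hq : DFun m q) (hN : DFun m N) (he : DFun m e)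
    (hj : DFun m j) (hg : DFun m g) (hB : DFun m B)
    (hpp : ∀ v, IsPrimePow (q v)) (hjN : ∀ v, j v < N v) (hqN : ∀ v, q v ^ N v ≤ B v)
    (hqe : ∀ v, q v ^ e v ≤ B v)
    (hTb : ∀ v z, z < q v ^ N v → T z (fun i => τ i v) < q v ^ N v)
    (hlin : ∀ v, ∃ A : Matrix (Fin (N v)) (Fin (N v)) (ZMod (q v)), ∀ z, z < q v ^ N v →
      vecOf (q v) (N v) (T z (fun i => τ i v)) = A.mulVec (vecOf (q v) (N v) z)) :
    DFun m (fun v => ud (q v) (e v) (fun z => T z (fun i => τ i v)) (g v) (j v)) := by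
  classical
  have hQ : DFun m (fun v => q v ^ e v) := dfun_powLe hq he hB hqe
  -- `RD` with the first variable as `U`
  have h1 : Delta0 (m + 1) (fun w => RD (q fun i => w i.succ) (e fun i => w i.succ)
      (fun z => T z (fun k => τ k fun i => w i.succ)) (g fun i => w i.succ) (j fun i => w i.succ)
      (w 0)) :=
    rd_delta (m := m + 1) hT (τ := fun k w => τ k fun i => w i.succ) (fun k => (hτ k).weak)
      hq.weak hN.weak he.weak hj.weak hg.weak (DFun.proj 0) hB.weak (fun w => hpp _)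
      (fun w => hjN _) (fun w => hqN _) (fun w => hqe _) (fun w => hTb _) (fun w => hlin _)
  have h2 : Delta0 (m + 1 + 1) (fun w => RD (q fun i => w i.succ.succ)
      (e fun i => w i.succ.succ) (fun z => T z (fun k => τ k fun i => w i.succ.succ))
      (g fun i => w i.succ.succ) (j fun i => w i.succ.succ) (w 0)) :=
    rd_delta (m := m + 1 + 1) hT (τ := fun k w => τ k fun i => w i.succ.succ)
      (fun k => (hτ k).weak.weak) hq.weak.weak hN.weak.weak he.weak.weak hj.weak.weak
      hg.weak.weak (DFun.proj 0) hB.weak.weak (fun w => hpp _)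
      (fun w => hjN _) (fun w => hqN _) (fun w => hqe _) (fun w => hTb _) (fun w => hlin _)
  have h3 : Delta0 (m + 1) (fun w => ∀ x, x < w 0 → ¬ RD (q fun i => w i.succ)
      (e fun i => w i.succ) (fun z => T z (fun k => τ k fun i => w i.succ))
      (g fun i => w i.succ) (j fun i => w i.succ) x) :=
    Dm_ball (m := m + 1) (b := fun w => w 0) (DFun.proj 0) (P := fun x w =>
      ¬ RD (q fun i => w i.succ) (e fun i => w i.succ)
      (fun z => T z (fun k => τ k fun i => w i.succ))
      (g fun i => w i.succ) (j fun i => w i.succ) x) h2.not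
  have h4 : Delta0 (m + 1) (fun w => ∃ x, x < (q fun i => w i.succ) ^ (e fun i => w i.succ) ∧
      RD (q fun i => w i.succ) (e fun i => w i.succ)
      (fun z => T z (fun k => τ k fun i => w i.succ))
      (g fun i => w i.succ) (j fun i => w i.succ) x) :=
    Dm_bex (m := m + 1) (b := fun w => (q fun i => w i.succ) ^ (e fun i => w i.succ)) hQ.weak
      (P := fun x w => RD (q fun i => w i.succ) (e fun i => w i.succ)
      (fun z => T z (fun k => τ k fun i => w i.succ))
      (g fun i => w i.succ) (j fun i => w i.succ) x) h2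
  have h5 := ((Delta0.ltFun (DFun.proj (n := m + 1) 0) hQ.weak).and (h1.and h3)).or
    ((Delta0.eqFun (DFun.proj (n := m + 1) 0) (DFun.const 1)).and h4.not)
  refine DFun.ofGraph (b := fun v => q v ^ e v) hQ (fun v => ?_) (h5.of_iff fun w => ?_)
  · unfold ud
    split_ifs with h
    · exact (Nat.find_spec h).1.le
    · exact Nat.one_le_pow _ _ (hpp v).pos
  · unfold ud
    by_cases h : ∃ x, x < (q fun i => w i.succ) ^ (e fun i => w i.succ) ∧
      RD (q fun i => w i.succ) (e fun i => w i.succ)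
      (fun z => T z (fun k => τ k fun i => w i.succ))
      (g fun i => w i.succ) (j fun i => w i.succ) x
    · rw [dif_pos h]
      constructor
      · intro e1
        rw [e1]
        refine Or.inl ⟨(Nat.find_spec h).1, (Nat.find_spec h).2, fun x hx hR => ?_⟩
        exact Nat.find_min h hx ⟨hx.trans (Nat.find_spec h).1, hR⟩
      · rintro (⟨ha, hb, hc⟩ | ⟨_, hb⟩)
        · refine le_antisymm ?_ (Nat.find_min' h ⟨ha, hb⟩)
          by_contra hlt
          exact hc _ (not_le.1 hlt) (Nat.find_spec h).2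
        · exact absurd h hb
    · rw [dif_neg h]
      constructor
      · exact fun e1 => Or.inr ⟨e1, h⟩
      · rintro (⟨ha, hb, _⟩ | ⟨hb, _⟩)
        · exact absurd ⟨_, ha, hb⟩ h
        · exact hb

theorem wd_def (hT : DFun (n + 1) (fun w => T (w 0) (fun i => w i.succ)))
    {τ : Fin n → (Fin m → ℕ) → ℕ} (hτ : ∀ i, DFun m (τ i))
    {q N e g B : (Fin m → ℕ) → ℕ} (hq : DFun m q) (hN : DFun m N) (he : DFun m e)
    (hg : DFun m g) (hB : DFun m B)
    (hpp : ∀ v, IsPrimePow (q v)) (hN1 : ∀ v, 1 ≤ N v) (hqN : ∀ v, q v ^ N v ≤ B v)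
    (hqe : ∀ v, q v ^ e v ≤ B v)
    (hTb : ∀ v z, z < q v ^ N v → T z (fun i => τ i v) < q v ^ N v)
    (hlin : ∀ v, ∃ A : Matrix (Fin (N v)) (Fin (N v)) (ZMod (q v)), ∀ z, z < q v ^ N v →
      vecOf (q v) (N v) (T z (fun i => τ i v)) = A.mulVec (vecOf (q v) (N v) z)) :
    DFun m (fun v => wd (q v) (N v) (e v) (fun z => T z (fun i => τ i v)) (g v)) := by
  have h2 : ∀ v, 2 ≤ q v := fun v => (hpp v).two_le
  have hjm : DFun (m + 1) (fun w => min (w 0) (N (fun i => w i.succ) - 1)) :=
    (DFun.proj 0).min (hN.weak.sub (DFun.const 1))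
  have h1 := ud_def (m := m + 1) hT (τ := fun k w => τ k fun i => w i.succ)
    (fun k => (hτ k).weak) hq.weak hN.weak he.weak hjm hg.weak hB.weak (fun w => hpp _)
    (fun w => lt_of_le_of_lt (min_le_right _ _) (by have := hN1 (fun i => w i.succ); omega))
    (fun w => hqN _) (fun w => hqe _) (fun w => hTb _) (fun w => hlin _)
  have h3 := rde_def (m := fun w : Fin (m + 1) → ℕ => q fun i => w i.succ)
    (d := fun w => e fun i => w i.succ) (c := fun w => g fun i => w i.succ)
    (B := fun w => B fun i => w i.succ) hq.weak he.weak hg.weak hB.weak (fun w => h2 _)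
    (fun w => hqe _) h1
  have h4 := rprod_def (m := q) (d := e) (c := g) (B := B) hq he hg hB h2 hqe (L := N) (M := B)
    hN hB (fun v => (le_lg_of_pow_le (h2 v) (hqN v)).trans (Nat.le_succ _))
    (P := fun v i => de (q v) (e v) (g v) (ud (q v) (e v) (fun z => T z (fun k => τ k v)) (g v)
      (min i (N v - 1)))) h3
  refine dfun_of_eq h4 fun v => ?_
  unfold wd
  congr 1
  refine Finset.prod_congr rfl fun i hi => ?_
  have := mem_range.1 hi
  rw [min_eq_left (by omega)]

theorem goodD_delta (hT : DFun (n + 1) (fun w => T (w 0) (fun i => w i.succ)))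
    {τ : Fin n → (Fin m → ℕ) → ℕ} (hτ : ∀ i, DFun m (τ i))
    {q N e P B : (Fin m → ℕ) → ℕ} (hq : DFun m q) (hN : DFun m N) (he : DFun m e)
    (hP : DFun m P) (hB : DFun m B)
    (hpp : ∀ v, IsPrimePow (q v)) (hN1 : ∀ v, 1 ≤ N v) (hqN : ∀ v, q v ^ N v ≤ B v)
    (hqe : ∀ v, q v ^ e v ≤ B v)
    (hTb : ∀ v z, z < q v ^ N v → T z (fun i => τ i v) < q v ^ N v)
    (hlin : ∀ v, ∃ A : Matrix (Fin (N v)) (Fin (N v)) (ZMod (q v)), ∀ z, z < q v ^ N v →
      vecOf (q v) (N v) (T z (fun i => τ i v)) = A.mulVec (vecOf (q v) (N v) z)) :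
    Delta0 m (fun v => GoodD (q v) (N v) (e v) (fun z => T z (fun i => τ i v)) (P v)) := by
  have h2 : ∀ v, 2 ≤ q v := fun v => (hpp v).two_le
  have hqNd : DFun m (fun v => q v ^ N v) := dfun_powLe hq hN hB hqN
  have hqed : DFun m (fun v => q v ^ e v) := dfun_powLe hq he hB hqe
  -- the variables `(U, j, g, v)`; `j` is replaced by `min j (N - 1)`
  have hjm : DFun (m + 1 + 1 + 1) (fun w => min (w (Fin.succ 0))
      (N (fun i => w i.succ.succ.succ) - 1)) :=
    (DFun.proj _).min (hN.weak.weak.weak.sub (DFun.const 1))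
  have hR := rd_delta (m := m + 1 + 1 + 1) hT (τ := fun k w => τ k fun i => w i.succ.succ.succ)
    (fun k => (hτ k).weak.weak.weak) hq.weak.weak.weak hN.weak.weak.weak he.weak.weak.weak hjm
    (g := fun w => w (Fin.succ (Fin.succ 0))) (DFun.proj _) (U := fun w => w 0) (DFun.proj _)
    hB.weak.weak.weak (fun w => hpp _)
    (fun w => lt_of_le_of_lt (min_le_right _ _) (Nat.sub_lt (hN1 _) Nat.one_pos))
    (fun w => hqN _) (fun w => hqe _) (fun w => hTb _) (fun w => hlin _)
  have hE := Dm_bex (m := m + 1 + 1)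
    (b := fun u => q (fun i => u i.succ.succ) ^ e (fun i => u i.succ.succ)) hqed.weak.weak
    (P := fun U u => RD (q fun i => u i.succ.succ) (e fun i => u i.succ.succ)
      (fun z => T z (fun k => τ k fun i => u i.succ.succ)) (u (Fin.succ 0))
      (min (u 0) (N (fun i => u i.succ.succ) - 1)) U) hR
  have hA := Dm_ball (m := m + 1) (b := fun u => N (fun i => u i.succ)) hN.weak
    (P := fun j u => ∃ U, U < q (fun i => u i.succ) ^ e (fun i => u i.succ) ∧
      RD (q fun i => u i.succ) (e fun i => u i.succ)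
      (fun z => T z (fun k => τ k fun i => u i.succ)) (u 0)
      (min j (N (fun i => u i.succ) - 1)) U) hE
  -- the variables `(h, g, v)`
  have hW := wd_def (m := m + 1 + 1) hT (τ := fun k w => τ k fun i => w i.succ.succ)
    (fun k => (hτ k).weak.weak) hq.weak.weak hN.weak.weak he.weak.weak
    (g := fun w => w (Fin.succ 0)) (DFun.proj _) hB.weak.weak (fun w => hpp _) (fun w => hN1 _)
    (fun w => hqN _) (fun w => hqe _) (fun w => hTb _) (fun w => hlin _)
  have hD := H63LB.divU_delta (m := m + 1 + 1) hq.weak.weak hN.weak.weak he.weak.weak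
    (g := fun w => w (Fin.succ 0)) (DFun.proj _) hW hP.weak.weak
    (P := fun _ => 1) (DFun.const 1) (h := fun w => w 0) (DFun.proj _) hB.weak.weak
    (fun w => h2 _) (fun w => hqN _) (fun w => hqe _)
  have hD2 := Dm_bex (m := m + 1)
    (b := fun u => q (fun i => u i.succ) ^ N (fun i => u i.succ)) hqNd.weak
    (P := fun h u => H63LB.DivU (q fun i => u i.succ) (N fun i => u i.succ)
      (e fun i => u i.succ) (u 0) (wd (q fun i => u i.succ) (N fun i => u i.succ)
        (e fun i => u i.succ) (fun z => T z (fun k => τ k fun i => u i.succ)) (u 0))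
      (P fun i => u i.succ) 1 h) hD
  have hfin := Dm_ball (m := m) (b := fun v => q v ^ e v) hqed
    (P := fun g v => (∀ j, j < N v → ∃ U, U < q v ^ e v ∧
      RD (q v) (e v) (fun z => T z (fun k => τ k v)) g (min j (N v - 1)) U) →
      ∃ h, h < q v ^ N v ∧ H63LB.DivU (q v) (N v) (e v) g
        (wd (q v) (N v) (e v) (fun z => T z (fun k => τ k v)) g) (P v) 1 h) (hA.imp hD2)
  refine hfin.of_iff fun v => ?_
  have hmin : ∀ j, j < N v → min j (N v - 1) = j := fun j hj => min_eq_left (by omega)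
  constructor
  · intro h g hg hU
    exact h g hg fun j hj => by
      have := hU j hj
      rwa [hmin j hj] at this
  · intro h g hg hU
    exact h g hg fun j hj => by
      rw [hmin j hj]
      exact hU j hj

end Pool.Agent.H34Det
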