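import Pool.Agent.H34Det.Pb
import Pool.Agent.H34Det.Dm
import Pool.Agent.H34Det.Bn

/-!
# Characteristic polynomials in the full regime: prime power modulus
-/

set_option autoImplicit false

namespace Pool.Agent.H34Det

open Finset Polynomial Pool.Agent.Grz Pool.Agent.GAvg Pool.Agent.PTr Pool.Agent.MTr
open Pool.Agent.LPC Pool.Agent.ECD Pool.Agent.LinU Pool.Agent.H39H

/-- the codes of the coefficients of the characteristic polynomial -/
theorem val_coeff {q N P i : ℕ} (hq : 2 ≤ q) {A : Matrix (Fin N) (Fin N) (ZMod q)}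
    (h : mu (ZMod q) q N P = A.charpoly) :
    (A.charpoly.coeff i).val = if i < N then dg q P i else if i = N then 1 else 0 := by
  have : NeZero q := ⟨by omega⟩
  have : Fact (1 < q) := ⟨by omega⟩
  rw [← h, A7.mu_coeff]
  split_ifs with h1 h2
  · rw [ZMod.val_natCast_of_lt (dg_lt (by omega) _ _)]
  · exact ZMod.val_one q
  · exact ZMod.val_zero

open H63LB.Cor in
/-- **Characteristic polynomials over `ℤ/q`, `q` a prime power, full regime.** -/
theorem coeff_pp {n : ℕ} {q N B i f : (Fin n → ℕ) → ℕ} {T : ℕ → (Fin n → ℕ) → ℕ}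
    (hq : DFun n q) (hN : DFun n N) (hB : DFun n B) (hi : DFun n i)
    (hT : DFun (n + 1) (fun w => T (w 0) (fun i => w i.succ))) (hpp : ∀ v, IsPrimePow (q v))
    (hqN : ∀ v, q v ^ N v ≤ B v)
    (hTb : ∀ v z, z < q v ^ N v → T z v < q v ^ N v)
    (hlin : ∀ v, ∃ A : Matrix (Fin (N v)) (Fin (N v)) (ZMod (q v)),
      (∀ z, z < q v ^ N v → vecOf (q v) (N v) (T z v) = A.mulVec (vecOf (q v) (N v) z)) ∧
      f v = (A.charpoly.coeff (i v)).val) : DFun n f := by
  classical
  have h2 : ∀ v, 2 ≤ q v := fun v => (hpp v).two_le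
  have hex : ∀ v, ∃ k, 0 < k ∧ (q v).minFac.Prime ∧ q v = (q v).minFac ^ k := by
    intro v
    obtain ⟨p, k, hp, hk, hpk⟩ := (isPrimePow_nat_iff _).1 (hpp v)
    have h3 : (q v).minFac = p := by
      rw [← hpk]
      exact hp.pow_minFac hk.ne'
    exact ⟨k, hk, by rw [h3]; exact hp, by rw [h3, hpk]⟩
  choose k hk hp hqk using hex
  have hp2 : ∀ v, 2 ≤ (q v).minFac := fun v => (hp v).two_le
  obtain ⟨N', hN'def⟩ : ∃ N' : (Fin n → ℕ) → ℕ, N' = fun v => if N v = 0 then 1 else N v :=
    ⟨_, rfl⟩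
  obtain ⟨T', hT'def⟩ : ∃ T' : ℕ → (Fin n → ℕ) → ℕ,
      T' = fun z v => if N v = 0 then 0 else T z v := ⟨_, rfl⟩
  have hN0D : Delta0 n (fun v => N v = 0) := Delta0.eqFun hN (DFun.const 0)
  have hN' : DFun n N' := by
    rw [hN'def]
    exact DFun.ite hN0D (DFun.const 1) hN
  have hT' : DFun (n + 1) (fun w => T' (w 0) (fun i => w i.succ)) := by
    rw [hT'def]
    exact DFun.ite (Delta0.eqFun hN.weak (DFun.const 0)) (DFun.const 0) hT
  have hN1 : ∀ v, 1 ≤ N' v := by
    intro v
    rw [hN'def]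
    simp only
    split_ifs <;> omega
  have hNe : ∀ v, N v ≠ 0 → N' v = N v := by
    intro v hv
    rw [hN'def]
    simp only
    rw [if_neg hv]
  have hTe : ∀ v, N v ≠ 0 → ∀ z, T' z v = T z v := by
    intro v hv z
    rw [hT'def]
    simp only
    rw [if_neg hv]
  have hT0 : ∀ v, N v = 0 → ∀ z, T' z v = 0 := by
    intro v hv z
    rw [hT'def]
    simp only
    rw [if_pos hv]
  have hTb' : ∀ v z, z < q v ^ N' v → T' z v < q v ^ N' v := by
    intro v z hz
    by_cases h0 : N v = 0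
    · rw [hT0 v h0]
      exact pow_pos (by have := h2 v; omega) _
    · rw [hTe v h0]
      rw [hNe v h0] at hz ⊢
      exact hTb v z hz
  have hlin' : ∀ v, ∃ A : Matrix (Fin (N' v)) (Fin (N' v)) (ZMod (q v)), ∀ z, z < q v ^ N' v →
      vecOf (q v) (N' v) (T' z v) = A.mulVec (vecOf (q v) (N' v) z) := by
    intro v
    by_cases h0 : N v = 0
    · refine ⟨0, fun z _ => ?_⟩
      rw [hT0 v h0, Matrix.zero_mulVec]
      funext i
      show ((dg (q v) 0 i : ℕ) : ZMod (q v)) = 0
      rw [A7.dg_zero, Nat.cast_zero]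
    · rw [hNe v h0]
      obtain ⟨A, hA, _⟩ := hlin v
      refine ⟨A, fun z hz => ?_⟩
      rw [hTe v h0]
      exact hA z hz
  obtain ⟨e, hedef⟩ : ∃ e : (Fin n → ℕ) → ℕ,
      e = fun v => ee (q v).minFac (N' v * (N' v + 1) / 2) := ⟨_, rfl⟩
  have he : DFun n e := by
    rw [hedef]
    exact ee_def (minFac_def hq h2) (DFun.divPos (hN'.mul (hN'.add (DFun.const 1)))
      (DFun.const 2) fun _ => by norm_num) hp2
  have he1 : ∀ v, 1 ≤ e v := fun v => by
    rw [hedef]
    exact (ee_spec (hp2 v)).1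
  have hc : ∀ v, 3 * (N' v * (N' v + 1) / 2) ≤ (q v).minFac ^ e v := fun v => by
    rw [hedef]
    exact (ee_spec (hp2 v)).2
  have hqN1 : ∀ v, q v ^ N' v ≤ B v + q v := by
    intro v
    by_cases h0 : N v = 0
    · rw [hN'def]
      simp only
      rw [if_pos h0, pow_one]
      omega
    · rw [hNe v h0]
      exact (hqN v).trans (Nat.le_add_right _ _)
  obtain ⟨B', hB'def⟩ : ∃ B' : (Fin n → ℕ) → ℕ, B' = fun v => (B v + q v) ^ 5 := ⟨_, rfl⟩
  have hB' : DFun n B' := by
    rw [hB'def]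
    exact Pool.Agent.PTr.DFun.powConst (hB.add hq) 5
  have hqe : ∀ v, q v ^ e v ≤ B' v := fun v => by
    rw [hB'def, hedef]
    exact ee_bound (hp v) (hk v) (hqk v) (hN1 v) (hqN1 v)
  have hqN' : ∀ v, q v ^ N' v ≤ B' v := by
    intro v
    rw [hB'def]
    exact (hqN1 v).trans (Nat.le_self_pow (by omega) _)
  choose A' hA' using hlin'
  -- the code of the characteristic polynomial
  have hP : DFun n (fun v => cde (N' v) (A' v).charpoly) := by
    refine DFun.ofGraph hB' (fun v => (cde_lt (h2 v) _).le.trans (hqN' v)) ?_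
    have hG := goodD_delta (m := n + 1) hT' (τ := fun i w => w i.succ) (fun i => DFun.proj _)
      hq.weak hN'.weak he.weak (P := fun w => w 0) (DFun.proj 0) hB'.weak (fun w => hpp _)
      (fun w => hN1 _) (fun w => hqN' _) (fun w => hqe _) (fun w => hTb' _)
      (fun w => ⟨_, hA' _⟩)
    have h3 := (Delta0.ltFun (DFun.proj (n := n + 1) 0)
      (dfun_powLe hq hN' hB' hqN').weak).and hG
    refine h3.of_iff fun w => ?_
    set v : Fin n → ℕ := fun i => w i.succ with hv
    show w 0 = cde (N' v) (A' v).charpoly ↔ w 0 < q v ^ N' v ∧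
      GoodD (q v) (N' v) (e v) (fun z => T' z v) (w 0)
    constructor
    · intro h
      rw [h]
      exact ⟨cde_lt (h2 v) _, goodD_chi (h2 v) (he1 v) (hN1 v) (hTb' v) (hA' v)⟩
    · rintro ⟨h4, h5⟩
      have h6 := goodD_unique (hp v) (hk v) (hqk v) (he1 v) (hN1 v) (hc v) (hTb' v) (hA' v) h4 h5
      have h7 : mu (ZMod (q v)) (q v) (N' v) (cde (N' v) (A' v).charpoly) = (A' v).charpoly := by
        have : Nontrivial (ZMod (q v)) := ZMod.nontrivial_iff.2 (by have := h2 v; omega)
        refine A7.mu_cde (h2 v) (Matrix.charpoly_monic _) ?_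
        rw [Matrix.charpoly_natDegree_eq_dim, Fintype.card_fin]
      refine dg_ext h4 (cde_lt (h2 v) _) fun j hj => ?_
      have h8 := val_coeff (i := j) (h2 v) h6
      have h9 := val_coeff (i := j) (h2 v) h7
      rw [if_pos hj] at h8 h9
      rw [← h8, ← h9]
  have hfin := DFun.ite (Delta0.ltFun hi hN) (dfun_dg hq hP hi h2)
    (DFun.ite (Delta0.eqFun hi hN) (DFun.const 1) (DFun.const 0))
  refine (congrArg (DFun n) (funext fun v => ?_)).mp hfin
  obtain ⟨A, hA, hf⟩ := hlin v
  rw [hf]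
  by_cases h0 : N v = 0
  · have h1 : A.charpoly = 1 := by
      have : IsEmpty (Fin (N v)) := by rw [h0]; infer_instance
      rw [Matrix.charpoly, Matrix.det_isEmpty]
    have : NeZero (q v) := ⟨by have := h2 v; omega⟩
    have : Fact (1 < q v) := ⟨by have := h2 v; omega⟩
    rw [h1, coeff_one, if_neg (by omega)]
    by_cases h3 : i v = N v
    · rw [if_pos h3, if_pos (by omega), ZMod.val_one]
    · rw [if_neg h3, if_neg (by omega), ZMod.val_zero]
  · have h4 : (A.charpoly.coeff (i v)).val = _ := val_coeff (P := cde (N v) A.charpoly)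
      (i := i v) (h2 v) (by
        have : Nontrivial (ZMod (q v)) := ZMod.nontrivial_iff.2 (by have := h2 v; omega)
        refine A7.mu_cde (h2 v) (Matrix.charpoly_monic _) ?_
        rw [Matrix.charpoly_natDegree_eq_dim, Fintype.card_fin])
    rw [h4]
    have hAA : cde (N' v) (A' v).charpoly = cde (N v) A.charpoly := by
      have key : ∀ (M : ℕ) (hM : M = N v) (C : Matrix (Fin M) (Fin M) (ZMod (q v))),
          (∀ z, z < q v ^ M → vecOf (q v) M (T z v) = C.mulVec (vecOf (q v) M z)) →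
          cde M C.charpoly = cde (N v) A.charpoly := by
        rintro M rfl C hC
        have : C = A := by
          ext ⟨a, ha⟩ ⟨b, hb⟩
          rw [← H63LB.ac_eq (T := fun z => T z v) (h2 v) hC ha hb,
            ← H63LB.ac_eq (T := fun z => T z v) (h2 v) hA ha hb]
        rw [this]
      refine key (N' v) (hNe v h0) (A' v) fun z hz => ?_
      rw [← hTe v h0]
      exact hA' v z hz
    rw [hAA]

end Pool.Agent.H34Det
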