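import Pool.Agent.H39H.RelH
import Pool.Agent.LinU.P5B

/-!
# Characteristic polynomials in the full regime: definitions

`A` is an `N × N` matrix over `ℤ/q`, `T` the map of the codes `z < q ^ N` of the vectors, `A_j` the
leading block of `A` with `j` rows, `χ_j` its characteristic polynomial, `g = mu q e g` a monic
polynomial of degree `e`. If `(y - A_(j+1)) u = e_(j+1)` modulo `g` and `U` is the last coordinate of
`u` then `χ_(j+1) U = χ_j` modulo `g`.
-/

set_option autoImplicit false

namespace Pool.Agent.H34Det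

open Finset Polynomial Pool.Agent.LinU Pool.Agent.H39H

/-- the map of the leading block with `j` rows -/
def Tb (q j : ℕ) (T : ℕ → ℕ) (z : ℕ) : ℕ := T z % q ^ j

/-- `U` is the last coordinate of a solution `u` of `(y - A_(j+1)) u = e_(j+1)` modulo `g` -/
def RD (q e : ℕ) (T : ℕ → ℕ) (g j U : ℕ) : Prop :=
  RCH q (j + 1) e (q ^ j) (Tb q (j + 1) T) j g U

open Classical in
/-- the least such `U`, or `1` -/
noncomputable def ud (q e : ℕ) (T : ℕ → ℕ) (g j : ℕ) : ℕ :=
  if h : ∃ U, U < q ^ e ∧ RD q e T g j U then Nat.find h else 1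

/-- the code of the product of the `U_j`, `j < N`, modulo `g` -/
noncomputable def wd (q N e : ℕ) (T : ℕ → ℕ) (g : ℕ) : ℕ :=
  en (∏ j ∈ range N, de q e g (ud q e T g j))

/-- `P` is the code of the characteristic polynomial -/
def GoodD (q N e : ℕ) (T : ℕ → ℕ) (P : ℕ) : Prop :=
  ∀ g, g < q ^ e → (∀ j, j < N → ∃ U, U < q ^ e ∧ RD q e T g j U) →
    ∃ h, h < q ^ N ∧ H63LB.DivU q N e g (wd q N e T g) P 1 h

end Pool.Agent.H34Det
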