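import Pool.Agent.H34Det.Def
import Pool.Agent.H69Fu.Core

/-!
# Package Dl: the relation `RD` is definable

As `Pool.Agent.H39H.rch_delta`, with `full_iter_pp` instead of `pow_small`: `e ≤ lg B` suffices (for
`dfun_sumPoly`); then `N := j + 1`, `x := q ^ j`, `T := Tb q (j + 1) T`.
-/

set_option autoImplicit false

namespace Pool.Agent.H34Det

open Finset Polynomial Pool.Agent.Grz Pool.Agent.GAvg Pool.Agent.PTr Pool.Agent.MTr
open Pool.Agent.LPC Pool.Agent.ECD Pool.Agent.LinU Pool.Agent.H39H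

variable {n m : ℕ} {T : ℕ → (Fin n → ℕ) → ℕ}

theorem itF_def (hT : DFun (n + 1) (fun w => T (w 0) (fun i => w i.succ)))
    {τ : Fin n → (Fin m → ℕ) → ℕ} (hτ : ∀ i, DFun m (τ i))
    {q N e z s B : (Fin m → ℕ) → ℕ} (hq : DFun m q) (hN : DFun m N) (he : DFun m e)
    (hz : DFun m z) (hs : DFun m s) (hB : DFun m B) (hpp : ∀ v, IsPrimePow (q v))
    (hqN : ∀ v, q v ^ N v ≤ B v)
    (hTb : ∀ v z, z < q v ^ N v → T z (fun i => τ i v) < q v ^ N v)
    (hlin : ∀ v, ∃ A : Matrix (Fin (N v)) (Fin (N v)) (ZMod (q v)), ∀ z, z < q v ^ N v →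
      vecOf (q v) (N v) (T z (fun i => τ i v)) = A.mulVec (vecOf (q v) (N v) z)) :
    DFun m (fun v => (fun y => T y (fun i => τ i v))^[min (s v) (e v)]
      (z v % q v ^ N v)) := by
  have h2 : ∀ v, 2 ≤ q v := fun v => (hpp v).two_le
  have hQ : DFun m (fun v => q v ^ N v) := dfun_powLe hq hN hB hqN
  have hQ0 : ∀ v, 0 < q v ^ N v := fun v => pow_pos (by have := h2 v; omega) _
  have hT' : DFun (m + 1) (fun w => T (w 0) (fun k => τ k (fun i => w i.succ))) :=
    DFun.app hT (DFun.proj 0) fun k => (hτ k).weak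
  exact H69Fu.full_iter_pp (T := fun y v => T y (fun k => τ k v)) hq hN hB
    (DFun.modPos hz hQ hQ0) (hs.min he) hT' hpp hqN hTb hlin fun v => Nat.mod_lt _ (hQ0 v)

theorem uHF_def (hT : DFun (n + 1) (fun w => T (w 0) (fun i => w i.succ)))
    {τ : Fin n → (Fin m → ℕ) → ℕ} (hτ : ∀ i, DFun m (τ i))
    {q N e g z s c B : (Fin m → ℕ) → ℕ} (hq : DFun m q) (hN : DFun m N) (he : DFun m e)
    (hg : DFun m g) (hz : DFun m z) (hs : DFun m s) (hc : DFun m c) (hB : DFun m B)
    (hpp : ∀ v, IsPrimePow (q v)) (hqN : ∀ v, q v ^ N v ≤ B v) (hqe : ∀ v, q v ^ e v ≤ B v)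
    (hTb : ∀ v z, z < q v ^ N v → T z (fun i => τ i v) < q v ^ N v)
    (hlin : ∀ v, ∃ A : Matrix (Fin (N v)) (Fin (N v)) (ZMod (q v)), ∀ z, z < q v ^ N v →
      vecOf (q v) (N v) (T z (fun i => τ i v)) = A.mulVec (vecOf (q v) (N v) z)) :
    DFun m (fun v => uH (q v) (e v) (fun y => T y (fun i => τ i v)) (g v)
      (z v % q v ^ N v) (min (s v) (e v)) (c v)) := by
  have h2 : ∀ v, 2 ≤ q v := fun v => (hpp v).two_le
  have h1 := dfun_dg hq (itF_def hT hτ hq hN he hz hs hB hpp hqN hTb hlin) hc h2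
  have hse : DFun m (fun v => min (s v) (e v)) := hs.min he
  have hin : DFun (m + 1) (fun w => dg (q fun i => w i.succ) (g fun i => w i.succ)
      (e (fun i => w i.succ) - min (s fun i => w i.succ) (e fun i => w i.succ) + w 0) *
      dg (q fun i => w i.succ) ((fun y => T y (fun k => τ k fun i => w i.succ))^[min (w 0)
        (e fun i => w i.succ)] ((z fun i => w i.succ) % (q fun i => w i.succ) ^
        (N fun i => w i.succ))) (c fun i => w i.succ)) := by
    refine DFun.mul (dfun_dg hq.weak hg.weak ((he.weak.sub hse.weak).add (DFun.proj 0))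
      fun w => h2 _) (dfun_dg hq.weak ?_ hc.weak fun w => h2 _)
    exact itF_def (m := m + 1) hT (τ := fun k w => τ k fun i => w i.succ)
      (fun k => (hτ k).weak) hq.weak hN.weak he.weak hz.weak (DFun.proj 0) hB.weak
      (fun w => hpp _) (fun w => hqN _) (fun w => hTb _) (fun w => hlin _)
  have hsum := dfun_sumPoly 1 (g := fun i v => dg (q v) (g v) (e v - min (s v) (e v) + i) *
      dg (q v) ((fun y => T y (fun k => τ k v))^[min i (e v)] (z v % q v ^ N v)) (c v))
    hin hse hB (fun v => by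
      have h3 : 2 ^ e v ≤ B v := (Nat.pow_le_pow_left (h2 v) _).trans (hqe v)
      have h4 : e v ≤ lg (B v) := by
        unfold lg
        exact Nat.le_log_of_pow_le (by norm_num) h3
      have h7 := min_le_right (s v) (e v)
      rw [pow_one]
      omega)
  have hfin := h1.add hsum
  refine (congrArg (DFun m) (funext fun v => ?_)).mp hfin
  unfold uH
  congr 1
  refine Finset.sum_congr rfl fun i hi => ?_
  have h8 : min i (e v) = i := by
    have h9 := mem_range.1 hi
    have h10 := min_le_right (s v) (e v)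
    exact min_eq_left (by omega)
  rw [h8]

theorem rchF_delta (hT : DFun (n + 1) (fun w => T (w 0) (fun i => w i.succ)))
    {τ : Fin n → (Fin m → ℕ) → ℕ} (hτ : ∀ i, DFun m (τ i))
    {q N e x j g U B : (Fin m → ℕ) → ℕ} (hq : DFun m q) (hN : DFun m N) (he : DFun m e)
    (hx : DFun m x) (hj : DFun m j) (hg : DFun m g) (hU : DFun m U) (hB : DFun m B)
    (hpp : ∀ v, IsPrimePow (q v)) (hqN : ∀ v, q v ^ N v ≤ B v) (hqe : ∀ v, q v ^ e v ≤ B v)
    (hTb : ∀ v z, z < q v ^ N v → T z (fun i => τ i v) < q v ^ N v)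
    (hlin : ∀ v, ∃ A : Matrix (Fin (N v)) (Fin (N v)) (ZMod (q v)), ∀ z, z < q v ^ N v →
      vecOf (q v) (N v) (T z (fun i => τ i v)) = A.mulVec (vecOf (q v) (N v) z)) :
    Delta0 m (fun v => RCH (q v) (N v) (e v) (x v) (fun z => T z (fun i => τ i v)) (j v)
      (g v) (U v)) := by
  have h2 : ∀ v, 2 ≤ q v := fun v => (hpp v).two_le
  have hQ : DFun m (fun v => q v ^ N v) := dfun_powLe hq hN hB hqN
  have hq0 : ∀ v, 0 < q v := fun v => by have := h2 v; omega
  have hu := fun (s c : (Fin (m + 2) → ℕ) → ℕ) (hs : DFun (m + 2) s) (hc : DFun (m + 2) c) =>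
    uHF_def (m := m + 2) hT (τ := fun k w => τ k fun i => w i.succ.succ)
      (fun k => (hτ k).weak.weak) hq.weak.weak hN.weak.weak he.weak.weak hg.weak.weak
      (z := fun w => w (Fin.succ 0)) (DFun.proj (Fin.succ 0)) hs hc hB.weak.weak
      (fun w => hpp _) (fun w => hqN _) (fun w => hqe _) (fun w => hTb _) (fun w => hlin _)
  have h1 : Delta0 (m + 1) (fun w => ∀ c, c < N (fun i => w i.succ) →
      (uH (q fun i => w i.succ) (e fun i => w i.succ) (fun y => T y (fun k => τ k fun i => w i.succ))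
        (g fun i => w i.succ) (w 0 % (q fun i => w i.succ) ^ (N fun i => w i.succ))
        (min (e fun i => w i.succ) (e fun i => w i.succ)) c +
        dg (q fun i => w i.succ) (x fun i => w i.succ) c) % (q fun i => w i.succ) = 0) := by
    refine DltH_ball (m := m + 1) hN.weak (P := fun c w =>
      (uH (q fun i => w i.succ) (e fun i => w i.succ) (fun y => T y (fun k => τ k fun i => w i.succ))
        (g fun i => w i.succ) (w 0 % (q fun i => w i.succ) ^ (N fun i => w i.succ))
        (min (e fun i => w i.succ) (e fun i => w i.succ)) c +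
        dg (q fun i => w i.succ) (x fun i => w i.succ) c) % (q fun i => w i.succ) = 0) ?_
    exact Delta0.eqFun (DFun.modPos ((hu (fun w => e fun i => w i.succ.succ) (fun w => w 0)
      he.weak.weak (DFun.proj 0)).add (dfun_dg hq.weak.weak hx.weak.weak (DFun.proj 0)
      fun w => h2 _)) hq.weak.weak fun w => hq0 _) (DFun.const 0)
  have h3 : Delta0 (m + 1) (fun w => ∀ s, s < e (fun i => w i.succ) →
      dg (q fun i => w i.succ) (U fun i => w i.succ) ((e fun i => w i.succ) - 1 - s) =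
      uH (q fun i => w i.succ) (e fun i => w i.succ) (fun y => T y (fun k => τ k fun i => w i.succ))
        (g fun i => w i.succ) (w 0 % (q fun i => w i.succ) ^ (N fun i => w i.succ))
        (min s (e fun i => w i.succ)) (j fun i => w i.succ) % (q fun i => w i.succ)) := by
    refine DltH_ball (m := m + 1) he.weak (P := fun s w =>
      dg (q fun i => w i.succ) (U fun i => w i.succ) ((e fun i => w i.succ) - 1 - s) =
      uH (q fun i => w i.succ) (e fun i => w i.succ) (fun y => T y (fun k => τ k fun i => w i.succ))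
        (g fun i => w i.succ) (w 0 % (q fun i => w i.succ) ^ (N fun i => w i.succ))
        (min s (e fun i => w i.succ)) (j fun i => w i.succ) % (q fun i => w i.succ)) ?_
    exact Delta0.eqFun (dfun_dg hq.weak.weak hU.weak.weak
      ((he.weak.weak.sub (DFun.const 1)).sub (DFun.proj 0)) fun w => h2 _)
      (DFun.modPos (hu (fun w => w 0) (fun w => j fun i => w i.succ.succ) (DFun.proj 0)
        hj.weak.weak) hq.weak.weak fun w => hq0 _)
  have h4 := DltH_bex (m := m) hQ (P := fun z v => (∀ c, c < N v →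
      (uH (q v) (e v) (fun y => T y (fun k => τ k v)) (g v) (z % q v ^ N v)
        (min (e v) (e v)) c + dg (q v) (x v) c) % q v = 0) ∧ ∀ s, s < e v →
      dg (q v) (U v) (e v - 1 - s) = uH (q v) (e v) (fun y => T y (fun k => τ k v)) (g v)
        (z % q v ^ N v) (min s (e v)) (j v) % q v) (h1.and h3)
  refine h4.of_iff fun v => ?_
  unfold RCH
  refine exists_congr fun z => and_congr_right fun hz => ?_
  rw [Nat.mod_eq_of_lt hz, min_self]
  refine and_congr_right fun _ => forall_congr' fun s => forall_congr' fun hs => ?_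
  rw [min_eq_left hs.le]

theorem dg_mod_powD {q N i z : ℕ} (hq : 0 < q) (hi : i < N) :
    dg q z i = dg q (z % q ^ N) i := by
  unfold dg
  obtain ⟨d, rfl⟩ := Nat.exists_eq_add_of_lt hi
  rw [show i + d + 1 = i + (d + 1) by ring, pow_add, Nat.mod_mul_right_div_self, pow_succ',
    Nat.mod_mul_right_mod]

/-- the leading block -/
theorem vecOf_Tb {q N J : ℕ} {T : ℕ → ℕ} (hq : 2 ≤ q) (hJ : J ≤ N)
    {A : Matrix (Fin N) (Fin N) (ZMod q)}
    (hA : ∀ z, z < q ^ N → vecOf q N (T z) = A.mulVec (vecOf q N z)) {z : ℕ} (hz : z < q ^ J) :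
    vecOf q J (Tb q J T z) =
      (A.submatrix (Fin.castLE hJ) (Fin.castLE hJ)).mulVec (vecOf q J z) := by
  have hzN : z < q ^ N := hz.trans_le (Nat.pow_le_pow_right (by omega) hJ)
  funext i
  have h1 : vecOf q J (Tb q J T z) i = ((dg q (Tb q J T z) i : ℕ) : ZMod q) := rfl
  have h2 : dg q (Tb q J T z) i = dg q (T z) i := (dg_mod_powD (by omega) i.2).symm
  have h3 : ((dg q (T z) i : ℕ) : ZMod q) = vecOf q N (T z) (Fin.castLE hJ i) := rfl
  rw [h1, h2, h3, hA z hzN]
  change ∑ l : Fin N, A (Fin.castLE hJ i) l * vecOf q N z l =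
    ∑ l : Fin J, A (Fin.castLE hJ i) (Fin.castLE hJ l) * vecOf q J z l
  symm
  have h4 : ∀ l : Fin J, A (Fin.castLE hJ i) (Fin.castLE hJ l) * vecOf q J z l =
      A (Fin.castLE hJ i) (Fin.castLE hJ l) * vecOf q N z (Fin.castLE hJ l) := fun l => rfl
  rw [Finset.sum_congr rfl fun l _ => h4 l]
  refine Eq.trans (Finset.sum_map univ (Fin.castLEEmb hJ)
    (fun l => A (Fin.castLE hJ i) l * vecOf q N z l)).symm ?_
  refine Finset.sum_subset (subset_univ _) fun l _ hl => ?_
  have h5 : J ≤ l.val := by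
    by_contra hcon
    exact hl (mem_map.2 ⟨⟨l.val, not_le.1 hcon⟩, mem_univ _, by ext; rfl⟩)
  have h6 : vecOf q N z l = ((dg q z l : ℕ) : ZMod q) := rfl
  rw [h6, A7.dg_zero_of_lt (hz.trans_le (Nat.pow_le_pow_right (by omega) h5)), Nat.cast_zero,
    mul_zero]

theorem rd_delta (hT : DFun (n + 1) (fun w => T (w 0) (fun i => w i.succ)))
    {τ : Fin n → (Fin m → ℕ) → ℕ} (hτ : ∀ i, DFun m (τ i))
    {q N e j g U B : (Fin m → ℕ) → ℕ} (hq : DFun m q) (hN : DFun m N) (he : DFun m e)
    (hj : DFun m j) (hg : DFun m g) (hU : DFun m U) (hB : DFun m B)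
    (hpp : ∀ v, IsPrimePow (q v)) (hjN : ∀ v, j v < N v) (hqN : ∀ v, q v ^ N v ≤ B v)
    (hqe : ∀ v, q v ^ e v ≤ B v)
    (hTb : ∀ v z, z < q v ^ N v → T z (fun i => τ i v) < q v ^ N v)
    (hlin : ∀ v, ∃ A : Matrix (Fin (N v)) (Fin (N v)) (ZMod (q v)), ∀ z, z < q v ^ N v →
      vecOf (q v) (N v) (T z (fun i => τ i v)) = A.mulVec (vecOf (q v) (N v) z)) :
    Delta0 m (fun v => RD (q v) (e v) (fun z => T z (fun i => τ i v)) (g v) (j v) (U v)) := by
  have h2 : ∀ v, 2 ≤ q v := fun v => (hpp v).two_le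
  have hj1 : DFun m (fun v => j v + 1) := hj.add (DFun.const 1)
  have hqj1 : ∀ v, q v ^ (j v + 1) ≤ B v := fun v =>
    (Nat.pow_le_pow_right (by have := h2 v; omega) (hjN v)).trans (hqN v)
  have hqj : ∀ v, q v ^ j v ≤ B v := fun v =>
    (Nat.pow_le_pow_right (by have := h2 v; omega) (Nat.le_succ _)).trans (hqj1 v)
  have hQ1 : DFun m (fun v => q v ^ (j v + 1)) := dfun_powLe hq hj1 hB hqj1
  have hQ : DFun m (fun v => q v ^ j v) := dfun_powLe hq hj hB hqj
  have hQ0 : ∀ v, 0 < q v ^ (j v + 1) := fun v => pow_pos (by have := h2 v; omega) _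
  have hT' : DFun (m + 1) (fun w => T (w 0) (fun k => τ k fun i => w i.succ) %
      (q fun i => w i.succ) ^ ((j fun i => w i.succ) + 1)) :=
    DFun.modPos (DFun.app hT (DFun.proj 0) fun k => (hτ k).weak) hQ1.weak fun w => hQ0 _
  exact rchF_delta (m := m) (n := m)
    (T := fun z v => T z (fun k => τ k v) % q v ^ (j v + 1)) hT'
    (τ := fun i v => v i) (fun i => DFun.proj i) hq hj1 he hQ hj hg hU hB hpp hqj1 hqe
    (fun v z _ => Nat.mod_lt _ (hQ0 v)) (fun v => by
      obtain ⟨A, hA⟩ := hlin v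
      exact ⟨_, fun z hz => vecOf_Tb (h2 v) (hjN v) hA hz⟩)

end Pool.Agent.H34Det
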