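import Pool.Agent.H34Det.Def
import Pool.Agent.H63AB.SolR

/-!
# Package Pa: the recurrence of the characteristic polynomials of the leading blocks (pure)

The numerator polynomials `nPol T (proj a) χ N (e_b)` are the entries of the adjugate of `X - A`
(`nPol_adj`). The entry of the last row and column of the adjugate is the characteristic
polynomial of the leading block (`nPol_last`). So the last coordinate `U` of every solution of
`(y - A) u = e_N` modulo `g` satisfies `χ_(N+1) U = χ_N` modulo `g`.
-/

set_option autoImplicit false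

namespace Pool.Agent.H34Det

open Polynomial Pool.Agent.SolR

variable {R : Type*} [CommRing R] {N : ℕ}

/-- the numerator polynomials are the entries of the adjugate -/
theorem nPol_adj [Nontrivial R] (A : Matrix (Fin N) (Fin N) R) (a b : Fin N) :
    nPol (Matrix.toLin' A) (LinearMap.proj a) A.charpoly N (Pi.single b 1) =
      A.charmatrix.adjugate a b := by
  classical
  obtain ⟨M, hM⟩ : ∃ M : Matrix (Fin N) (Fin N) R[X], M = Matrix.of fun a b =>
    nPol (Matrix.toLin' A) (LinearMap.proj a : (Fin N → R) →ₗ[R] R) A.charpoly N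
      (Pi.single b 1) := ⟨_, rfl⟩
  have hdeg : A.charpoly.natDegree = N := by
    rw [Matrix.charpoly_natDegree_eq_dim, Fintype.card_fin]
  have hχ : aeval (Matrix.toLin' A) A.charpoly = 0 := by
    have h1 := Matrix.aeval_self_charpoly A
    have h2 : aeval (Matrix.toLin' A) A.charpoly =
        Matrix.toLin' (aeval A A.charpoly) := by
      have h3 := Polynomial.aeval_algHom_apply (Matrix.toLinAlgEquiv' (R := R) (n := Fin N)).toAlgHom
        A A.charpoly
      exact h3
    rw [h2, h1, map_zero]
  have hmul : M * A.charmatrix = A.charpoly • (1 : Matrix (Fin N) (Fin N) R[X]) := by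
    ext1 a b
    have h1 := nPol_T (Matrix.toLin' A) (LinearMap.proj a : (Fin N → R) →ₗ[R] R) hdeg hχ
      (Pi.single b 1)
    have h2 : (Matrix.toLin' A) (Pi.single b 1) = ∑ c, A c b • (Pi.single c 1 : Fin N → R) := by
      funext i
      rw [Matrix.toLin'_apply, Matrix.mulVec_single_one, Finset.sum_apply]
      simp [Pi.single_apply]
    have h3 : nPol (Matrix.toLin' A) (LinearMap.proj a : (Fin N → R) →ₗ[R] R) A.charpoly N
        (∑ c, A c b • (Pi.single c 1 : Fin N → R)) = ∑ c, C (A c b) * M a c := by
      have h4 : ∀ s : Finset (Fin N),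
          nPol (Matrix.toLin' A) (LinearMap.proj a : (Fin N → R) →ₗ[R] R) A.charpoly N
            (∑ c ∈ s, A c b • (Pi.single c 1 : Fin N → R)) = ∑ c ∈ s, C (A c b) * M a c := by
        intro s
        induction s using Finset.induction_on with
        | empty => rw [Finset.sum_empty, Finset.sum_empty, nPol_zero]
        | insert c s hc ih =>
          rw [Finset.sum_insert hc, Finset.sum_insert hc, nPol_add, nPol_smul, ih, hM]
          rfl
      exact h4 _
    rw [h2, h3] at h1
    rw [Matrix.mul_apply]
    have h5 : ∀ c, M a c * A.charmatrix c b = (if c = b then X * M a c else 0) -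
        C (A c b) * M a c := by
      intro c
      by_cases hcb : c = b
      · subst hcb
        rw [Matrix.charmatrix_apply_eq, if_pos rfl]
        ring
      · rw [Matrix.charmatrix_apply_ne _ _ _ hcb, if_neg hcb]
        ring
    rw [Finset.sum_congr rfl fun c _ => h5 c, Finset.sum_sub_distrib, h1,
      Finset.sum_ite_eq' Finset.univ b, if_pos (Finset.mem_univ b), hM]
    simp only [Matrix.of_apply, Matrix.smul_apply, Matrix.one_apply, LinearMap.proj_apply,
      Pi.single_apply, smul_eq_mul]
    split_ifs <;> simp
  have hreg : A.charpoly.Monic := A.charpoly_monic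
  have h1 : M * A.charmatrix * A.charmatrix.adjugate =
      A.charmatrix.adjugate * A.charmatrix * A.charmatrix.adjugate := by
    rw [hmul, Matrix.adjugate_mul]
    rfl
  rw [mul_assoc, mul_assoc, Matrix.mul_adjugate] at h1
  have h2 : (A.charpoly : R[X]) • M = A.charpoly • A.charmatrix.adjugate := by
    rw [Matrix.mul_smul, Matrix.mul_smul, mul_one, mul_one] at h1
    exact h1
  have h3 := congrFun (congrFun h2 a) b
  rw [Matrix.smul_apply, Matrix.smul_apply, smul_eq_mul, smul_eq_mul] at h3
  have h4 := hreg.isRegular.left h3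
  rw [← h4, hM]
  rfl

/-- the numerator polynomial of the last coordinate and the last basis vector -/
theorem nPol_last [Nontrivial R] (A : Matrix (Fin (N + 1)) (Fin (N + 1)) R) :
    nPol (Matrix.toLin' A) (LinearMap.proj (Fin.last N)) A.charpoly (N + 1)
      (Pi.single (Fin.last N) 1) = (A.submatrix Fin.castSucc Fin.castSucc).charpoly := by
  rw [nPol_adj, Matrix.adjugate_fin_succ_eq_det_submatrix, ← two_mul, pow_mul, neg_one_sq, one_pow,
    one_mul, Matrix.charpoly]
  congr 1
  ext1 i j
  rw [Matrix.submatrix_apply, Fin.succAbove_last]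
  by_cases hij : i = j
  · subst hij
    rw [Matrix.charmatrix_apply_eq, Matrix.charmatrix_apply_eq]
    rfl
  · rw [Matrix.charmatrix_apply_ne _ _ _ hij, Matrix.charmatrix_apply_ne]
    · rfl
    · exact fun h => hij (Fin.castSucc_injective N h)

/-- `χ_(j+1) U = χ_j` modulo `g`, where `U` is the last coordinate of any solution of
`(y - A) u = e_j` modulo `g`. -/
theorem sol_minor {R : Type*} [CommRing R] [Nontrivial R] {j e : ℕ} (he : 0 < e)
    (A : Matrix (Fin (j + 1)) (Fin (j + 1)) R) {g : R[X]} (hg : g.Monic) (hge : g.natDegree = e)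
    {u : ℕ → Fin (j + 1) → R} (hs : Sol A.mulVecLin (Pi.single (Fin.last j) 1) e g u) :
    g ∣ A.charpoly * uPol (LinearMap.proj (Fin.last j)) e u -
      (A.submatrix Fin.castSucc Fin.castSucc).charpoly := by
  rw [← Matrix.toLin'_apply'] at hs
  have hdeg : A.charpoly.natDegree = j + 1 := by
    rw [Matrix.charpoly_natDegree_eq_dim, Fintype.card_fin]
  have hχ : aeval (Matrix.toLin' A) A.charpoly = 0 := by
    have h1 := Matrix.aeval_self_charpoly A
    have h2 : aeval (Matrix.toLin' A) A.charpoly = Matrix.toLin' (aeval A A.charpoly) :=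
      Polynomial.aeval_algHom_apply
        (Matrix.toLinAlgEquiv' (R := R) (n := Fin (j + 1))).toAlgHom A A.charpoly
    rw [h2, h1, map_zero]
  exact ⟨_, by rw [← nPol_last A]; exact sol_identity _ _ hdeg hχ he hg hge hs⟩

end Pool.Agent.H34Det
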