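import Pool.Agent.H34Det.Pa

/-!
# Package Pb: the characteristic polynomial is the good one, and only this one (pure)

Let `A_j` be the leading blocks, `χ_j` their characteristic polynomials. Every `U_j` with
`RD q e T g j U_j` satisfies `χ_(j+1) U_j = χ_j` modulo `g`, so `χ_N * ∏ U_j = χ_0 = 1` modulo `g`.
For `g` coprime to `∏ j < N, χ_(j+1)` all `U_j` exist, so `P * W = 1 = χ_N * W` modulo `g`.
-/

set_option autoImplicit false

namespace Pool.Agent.H34Det

open Finset Polynomial Pool.Agent.LinU Pool.Agent.H39H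

/-- the leading block with `j` rows (`0` outside) -/
def blk {R : Type*} [CommRing R] {N : ℕ} (A : Matrix (Fin N) (Fin N) R) (j : ℕ) :
    Matrix (Fin j) (Fin j) R :=
  fun a b => if h : (a : ℕ) < N ∧ (b : ℕ) < N then A ⟨a, h.1⟩ ⟨b, h.2⟩ else 0

theorem blk_sub {R : Type*} [CommRing R] {N : ℕ} (A : Matrix (Fin N) (Fin N) R) (j : ℕ) :
    (blk A (j + 1)).submatrix Fin.castSucc Fin.castSucc = blk A j := rfl

theorem blk_self {R : Type*} [CommRing R] {N : ℕ} (A : Matrix (Fin N) (Fin N) R) :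
    blk A N = A := by
  ext a b
  exact dif_pos ⟨a.2, b.2⟩

theorem chi_zero {R : Type*} [CommRing R] {N : ℕ} (A : Matrix (Fin N) (Fin N) R) :
    (blk A 0).charpoly = 1 := by
  rw [Matrix.charpoly]
  exact Matrix.det_fin_zero

theorem dg_mod {q j z c : ℕ} (hc : c < j) : dg q (z % q ^ j) c = dg q z c := by
  obtain ⟨d, rfl⟩ : ∃ d, j = c + 1 + d := ⟨j - (c + 1), by omega⟩
  unfold dg
  have h1 : q ^ (c + 1 + d) = q ^ c * (q * q ^ d) := by
    rw [pow_add, pow_succ]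
    ring
  rw [h1, Nat.mod_mul_right_div_self, Nat.mod_mod_of_dvd _ (dvd_mul_right q _)]

theorem dg_high {q j z c : ℕ} (hq : 2 ≤ q) (hz : z < q ^ j) (hc : j ≤ c) : dg q z c = 0 := by
  unfold dg
  rw [Nat.div_eq_of_lt (hz.trans_le (Nat.pow_le_pow_right (by omega) hc)), Nat.zero_mod]

variable {q N e : ℕ} {T : ℕ → ℕ} {A : Matrix (Fin N) (Fin N) (ZMod q)}

theorem Tb_lt (hq : 2 ≤ q) (j : ℕ) (z : ℕ) : Tb q j T z < q ^ j :=
  Nat.mod_lt _ (by positivity)

theorem Tb_vec (hq : 2 ≤ q) (hA : ∀ z, z < q ^ N → vecOf q N (T z) = A.mulVec (vecOf q N z))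
    {j : ℕ} (hj : j ≤ N) {z : ℕ} (hz : z < q ^ j) :
    vecOf q j (Tb q j T z) = (blk A j).mulVec (vecOf q j z) := by
  have hzN : z < q ^ N := hz.trans_le (Nat.pow_le_pow_right (by omega) hj)
  funext a
  have h1 := congrFun (hA z hzN) ⟨a, a.2.trans_le hj⟩
  have h2 : vecOf q j (Tb q j T z) a = vecOf q N (T z) ⟨a, a.2.trans_le hj⟩ := by
    show ((dg q (T z % q ^ j) a : ℕ) : ZMod q) = ((dg q (T z) a : ℕ) : ZMod q)
    rw [dg_mod a.2]
  rw [h2, h1]
  show ∑ b : Fin N, A ⟨a, _⟩ b * ((dg q z b : ℕ) : ZMod q) =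
    ∑ b : Fin j, blk A j a b * ((dg q z b : ℕ) : ZMod q)
  obtain ⟨f, hf⟩ : ∃ f : ℕ → ZMod q, f = fun b => (if h : b < N then
    A ⟨a, a.2.trans_le hj⟩ ⟨b, h⟩ else 0) * ((dg q z b : ℕ) : ZMod q) := ⟨_, rfl⟩
  have h4 : ∑ b : Fin N, A ⟨a, a.2.trans_le hj⟩ b * ((dg q z b : ℕ) : ZMod q) =
      ∑ b ∈ range N, f b := by
    rw [Finset.sum_range]
    refine Finset.sum_congr rfl fun b _ => ?_
    rw [hf]
    dsimp only
    rw [dif_pos b.2]
  have h5 : ∑ b : Fin j, blk A j a b * ((dg q z b : ℕ) : ZMod q) = ∑ b ∈ range j, f b := by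
    rw [Finset.sum_range]
    refine Finset.sum_congr rfl fun b _ => ?_
    rw [hf]
    dsimp only
    unfold blk
    rw [dif_pos (b.2.trans_le hj), dif_pos ⟨a.2.trans_le hj, b.2.trans_le hj⟩]
  rw [h4, h5]
  symm
  refine Finset.sum_subset (Finset.range_mono hj) fun b _ hb => ?_
  rw [mem_range, not_lt] at hb
  rw [hf]
  dsimp only
  rw [dg_high hq hz hb, Nat.cast_zero, mul_zero]

theorem vec_last (hq : 2 ≤ q) (j : ℕ) :
    vecOf q (j + 1) (q ^ j) = Pi.single (Fin.last j) 1 := by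
  funext a
  show ((dg q (q ^ j) a : ℕ) : ZMod q) = _
  by_cases ha : a = Fin.last j
  · subst ha
    rw [Pi.single_eq_same]
    unfold dg
    rw [Fin.val_last, Nat.div_self (by positivity), Nat.mod_eq_of_lt (by omega), Nat.cast_one]
  · rw [Pi.single_eq_of_ne ha]
    have h1 : (a : ℕ) < j := by
      have h2 : (a : ℕ) ≠ j := fun h => ha (Fin.ext h)
      have := a.2
      omega
    obtain ⟨d, hd⟩ : ∃ d, j = a + 1 + d := ⟨j - (a + 1), by omega⟩
    have h2 : dg q (q ^ j) a = 0 := by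
      unfold dg
      have h3 : q ^ j = q ^ (a : ℕ) * (q * q ^ d) := by
        conv_lhs => rw [hd, pow_add, pow_succ]
        ring
      rw [h3, Nat.mul_div_cancel_left _ (by positivity), Nat.mul_mod_right]
    rw [h2, Nat.cast_zero]

theorem dvd_of_rd (hq : 2 ≤ q) (he : 1 ≤ e)
    (hA : ∀ z, z < q ^ N → vecOf q N (T z) = A.mulVec (vecOf q N z)) {j g U : ℕ} (hj : j < N)
    (hU : U < q ^ e) (h : RD q e T g j U) :
    mu (ZMod q) q e g ∣ (blk A (j + 1)).charpoly * pol (ZMod q) q e U - (blk A j).charpoly := by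
  haveI : Nontrivial (ZMod q) := ZMod.nontrivial_iff.2 (by omega)
  obtain ⟨u, hs, hu⟩ := sol_of_rch hq he (Nat.lt_succ_self j)
    (fun z hz => Tb_vec hq hA hj hz) (fun z _ => Tb_lt hq (j + 1) z) h
  rw [vec_last hq] at hs
  obtain ⟨hgm, hge⟩ := A7.mu_monic_deg (A := ZMod q) q e g
  have h1 := sol_minor he (blk A (j + 1)) hgm hge hs
  rw [blk_sub] at h1
  rw [H63LB.pol_eq_uPol hq hU (Nat.lt_succ_self j) hu]
  exact h1

/-- the product of the last coordinates -/
theorem dvd_wd (hq : 2 ≤ q) (he : 1 ≤ e)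
    (hA : ∀ z, z < q ^ N → vecOf q N (T z) = A.mulVec (vecOf q N z)) {g : ℕ}
    (hex : ∀ j, j < N → ∃ U, U < q ^ e ∧ RD q e T g j U) :
    mu (ZMod q) q e g ∣ A.charpoly * pol (ZMod q) q e (wd q N e T g) - 1 := by
  have hu : ∀ j, j < N → ud q e T g j < q ^ e ∧ RD q e T g j (ud q e T g j) := by
    intro j hj
    unfold ud
    rw [dif_pos (hex j hj)]
    classical
    exact Nat.find_spec (hex j hj)
  have h1 : ∀ n, n ≤ N → AdjoinRoot.mk (mu (ZMod q) q e g) (blk A n).charpoly *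
      ∏ j ∈ range n, de q e g (ud q e T g j) = 1 := by
    intro n
    induction n with
    | zero =>
      intro _
      rw [chi_zero, map_one, Finset.prod_range_zero, mul_one]
    | succ n ih =>
      intro hn
      obtain ⟨hu1, hu2⟩ := hu n hn
      have h2 := dvd_of_rd hq he hA hn hu1 hu2
      rw [← AdjoinRoot.mk_eq_mk, map_mul] at h2
      rw [Finset.prod_range_succ, mul_comm (∏ j ∈ range n, _), ← mul_assoc]
      have h3 : AdjoinRoot.mk (mu (ZMod q) q e g) (blk A (n + 1)).charpoly *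
          de q e g (ud q e T g n) = AdjoinRoot.mk (mu (ZMod q) q e g) (blk A n).charpoly := h2
      rw [h3, ih (by omega)]
  have h2 := h1 N le_rfl
  rw [blk_self] at h2
  rw [← AdjoinRoot.mk_eq_mk, map_mul, map_one]
  have h3 : AdjoinRoot.mk (mu (ZMod q) q e g) (pol (ZMod q) q e (wd q N e T g)) =
      ∏ j ∈ range N, de q e g (ud q e T g j) := de_en hq _
  rw [h3, h2]

theorem pol_one (hq : 2 ≤ q) (hN : 1 ≤ N) : pol (ZMod q) q N 1 = 1 := by
  ext i
  rw [A7.pol_coeff, coeff_one]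
  by_cases hi : i = 0
  · subst hi
    rw [if_pos (by omega), if_pos rfl]
    unfold dg
    rw [pow_zero, Nat.div_one, Nat.mod_eq_of_lt (by omega), Nat.cast_one]
  · rw [if_neg hi]
    split_ifs with h
    · have h1 : dg q 1 i = 0 := by
        unfold dg
        rw [Nat.div_eq_of_lt (Nat.one_lt_pow hi (by omega)), Nat.zero_mod]
      rw [h1, Nat.cast_zero]
    · rfl

theorem goodD_chi {q N e : ℕ} {T : ℕ → ℕ} (hq : 2 ≤ q) (he : 1 ≤ e) (hN : 1 ≤ N)
    {A : Matrix (Fin N) (Fin N) (ZMod q)} (hTb : ∀ z, z < q ^ N → T z < q ^ N)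
    (hA : ∀ z, z < q ^ N → vecOf q N (T z) = A.mulVec (vecOf q N z)) :
    GoodD q N e T (cde N A.charpoly) := by
  intro g hg hex
  haveI : Nontrivial (ZMod q) := ZMod.nontrivial_iff.2 (by omega)
  have hW : wd q N e T g < q ^ e := en_lt hq _
  have h1 : 1 < q ^ N := Nat.one_lt_pow (by omega) (by omega)
  rw [← H63LB.divU_iff hq hg hW (cde_lt_aux hq _) h1 (by omega), pol_one hq hN,
    A7.mu_cde hq A.charpoly_monic (by rw [Matrix.charpoly_natDegree_eq_dim, Fintype.card_fin])]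
  exact dvd_wd hq he hA hex

theorem rd_exists {q N e : ℕ} {T : ℕ → ℕ} (hq : 2 ≤ q) (he : 1 ≤ e)
    {A : Matrix (Fin N) (Fin N) (ZMod q)}
    (hA : ∀ z, z < q ^ N → vecOf q N (T z) = A.mulVec (vecOf q N z)) {g j : ℕ} (hj : j < N)
    (hc : IsCoprime (mu (ZMod q) q e g) (blk A (j + 1)).charpoly) :
    ∃ U, U < q ^ e ∧ RD q e T g j U := by
  haveI : NeZero q := ⟨by omega⟩
  haveI : Nontrivial (ZMod q) := ZMod.nontrivial_iff.2 (by omega)
  obtain ⟨hgm, hge⟩ := A7.mu_monic_deg (A := ZMod q) q e g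
  have hc' : IsCoprime (mu (ZMod q) q e g) (LinearMap.charpoly (blk A (j + 1)).mulVecLin) := by
    rw [Matrix.charpoly_mulVecLin]
    exact hc
  obtain ⟨u, hu⟩ := SolR.exists_sol (blk A (j + 1)).mulVecLin
    (vecOf q (j + 1) (q ^ j)) he hgm hge hc'
  obtain ⟨U, hU, hU2⟩ := A7.exists_code hq e (fun l : Fin e => u l ⟨j, Nat.lt_succ_self j⟩)
  refine ⟨U, hU, ?_⟩
  refine rch_of_sol hq he (Nat.lt_succ_self j) (fun z hz => Tb_vec hq hA hj hz)
    (fun z _ => Tb_lt hq (j + 1) z) hu ?_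
  intro l hl
  exact congrFun hU2 ⟨l, hl⟩

theorem goodD_unique {p k q N e P : ℕ} {T : ℕ → ℕ} (hp : p.Prime) (hk : 0 < k)
    (hqp : q = p ^ k) (he : 1 ≤ e) (hN : 1 ≤ N) (hc : 3 * (N * (N + 1) / 2) ≤ p ^ e)
    {A : Matrix (Fin N) (Fin N) (ZMod q)} (hTb : ∀ z, z < q ^ N → T z < q ^ N)
    (hA : ∀ z, z < q ^ N → vecOf q N (T z) = A.mulVec (vecOf q N z)) (hP : P < q ^ N)
    (h : GoodD q N e T P) : mu (ZMod q) q N P = A.charpoly := by
  haveI : Fact p.Prime := ⟨hp⟩
  have hq : 2 ≤ q := by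
    rw [hqp]
    exact Nat.one_lt_pow hk.ne' hp.one_lt
  haveI : Nontrivial (ZMod q) := ZMod.nontrivial_iff.2 (by omega)
  have hmon : ∀ j, (blk A j).charpoly.Monic := fun j => (blk A j).charpoly_monic
  have hdeg : ∀ j, (blk A j).charpoly.natDegree = j := fun j => by
    rw [Matrix.charpoly_natDegree_eq_dim, Fintype.card_fin]
  obtain ⟨χ, hχ⟩ : ∃ χ : (ZMod q)[X], χ = ∏ j ∈ range N, (blk A (j + 1)).charpoly := ⟨_, rfl⟩
  have hχm : χ.Monic := hχ ▸ monic_prod_of_monic _ _ fun j _ => hmon _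
  have hχN : χ.natDegree = N * (N + 1) / 2 := by
    rw [hχ, natDegree_prod_of_monic _ _ fun j _ => hmon _, Finset.sum_congr rfl fun j _ => hdeg _]
    have h1 := Finset.sum_range_succ' (fun i => i) N
    have h2 := Finset.sum_range_id (N + 1)
    rw [Nat.add_sub_cancel, mul_comm] at h2
    rw [add_zero] at h1
    rw [← h1, h2]
  rw [← sub_eq_zero]
  refine SolR.eq_zero_of_dvd hk hqp he hc hχm hχN ?_ ?_
  · have h1 : (mu (ZMod q) q N P - A.charpoly).degree < (N : WithBot ℕ) := by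
      obtain ⟨hMm, hMN⟩ := A7.mu_monic_deg (A := ZMod q) q N P
      have h2 : (mu (ZMod q) q N P).degree = N := by
        rw [degree_eq_natDegree hMm.ne_zero, hMN]
      have h3 : A.charpoly.degree = N := by
        rw [A.charpoly_degree_eq_dim, Fintype.card_fin]
      rw [← h2]
      refine degree_sub_lt_left (by rw [h2, h3]) hMm.ne_zero ?_
      rw [hMm.leadingCoeff, A.charpoly_monic.leadingCoeff]
    refine h1.trans_le ?_
    have h2 : N ≤ N * (N + 1) / 2 + N * (N + 1) / 2 := by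
      have h3 : N * 2 ≤ N * (N + 1) := Nat.mul_le_mul_left _ (by omega)
      have h4 : N ≤ N * (N + 1) / 2 := (Nat.le_div_iff_mul_le (by norm_num)).2 h3
      omega
    exact_mod_cast h2
  · intro G hG hGe hcop
    obtain ⟨g, hg⟩ : ∃ g, g = cde e G := ⟨_, rfl⟩
    have hgG : mu (ZMod q) q e g = G := by
      rw [hg]
      exact A7.mu_cde hq hG hGe
    have hglt : g < q ^ e := hg ▸ cde_lt_aux hq G
    have hex : ∀ j, j < N → ∃ U, U < q ^ e ∧ RD q e T g j U := by
      intro j hj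
      refine rd_exists hq he hA hj ?_
      rw [hgG]
      rw [hχ] at hcop
      exact (IsCoprime.prod_right_iff.1 hcop) j (mem_range.2 hj)
    have h1 := dvd_wd hq he hA hex
    have hW : wd q N e T g < q ^ e := en_lt hq _
    have h2 : 1 < q ^ N := Nat.one_lt_pow (by omega) (by omega)
    have h3 := (H63LB.divU_iff hq hglt hW hP h2 (by omega)).2 (h g hglt hex)
    rw [pol_one hq hN] at h3
    rw [hgG] at h1 h3
    obtain ⟨a, ha⟩ := h1
    obtain ⟨b, hb⟩ := h3
    refine ⟨b * A.charpoly - a * mu (ZMod q) q N P, ?_⟩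
    linear_combination A.charpoly * hb - mu (ZMod q) q N P * ha

end Pool.Agent.H34Det
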